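import Pool.Agent.X31.S11
import Pool.Agent.X31.S7

/-!
# The least primes `p(c, m)` for all residues `c` near
# the values of generalised polynomials,
# and almost all moduli `m`

`f(t) = ∑ u_x t ^ x` is an arbitrary finite real combination of real powers of `t` with a positive largest exponent `c`
(for instance `t ^ {3/2}`, `√2 t ^ 3 + t`, `t ^ {1/10}`). The values considered are `b₀ + θ f(n)`, `n ≤ Y`, with arbitrary
real `b₀` and `θ` for which these values are of size `N` (for instance `θ = N / Y ^ c`).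
For almost all elements `n` of an ARBITRARY dense set `M ⊆ {1, ..., Y}`, ALL residues `c > 0` within `log ^ D N` of the value at `n`
satisfy, for all `1 ≤ lam ≤ (log 2N) ^ κ`: for all but at most `2 C N (1 / lam + 1 / (log 2N) ^ δ)` of the moduli
`2 N < m ≤ 4 N` coprime to `c` the least prime `p(c, m)` is at most `lam m log m`, and the number of the primes
`p ≡ c (mod m)` up to `lam m log m` is `lam m / φ(m)` up to a relative error `ε`; the constants `C` and `δ > 0` depend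
only on `ε`.

The minimal real additive energy of generalised polynomials is from `Pool.Agent.X31` (`gp_EB`, in this run);
the theorem for families of small energy is in the starting files (`W109.LT.families`,
`MP_5b0a7e_nt.ThinResiduesLambda`).
-/

set_option autoImplicit false

namespace Pool.Agent.Results.MP_42948a_nt.GeneralisedPolynomialClasses

open Finset

/-- the generalised polynomial with the exponents `x ∈ F` and the coefficients `u x` -/
noncomputable def f (F : Finset ℝ) (u : ℝ → ℝ) (t : ℝ) : ℝ := ∑ x ∈ F, u x * t ^ x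

/-- `M` is a subset of `{1, ..., Y}` with at least `Y / log ^ D N` elements, `Y ≤ N ^ D`; the number `θ` is at most
`log ^ D N` and at least `N / (Y ^ c log ^ D N)` in absolute value, and `|b₀ + θ f(n)| ≤ N` for all `n ∈ M`. -/
def Fam (F : Finset ℝ) (u : ℝ → ℝ) (c : ℝ) (D N Y : ℕ) (θ b₀ : ℝ) (M : Finset ℕ) : Prop :=
  (Y : ℝ) ≤ (N : ℝ) ^ D ∧ |θ| ≤ Real.log N ^ D ∧ (N : ℝ) / Real.log N ^ D ≤ |θ| * (Y : ℝ) ^ c ∧
  M ⊆ Icc 1 Y ∧ (Y : ℝ) / Real.log N ^ D ≤ M.card ∧ ∀ n ∈ M, |b₀ + θ * f F u n| ≤ N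

/-- `π(y; m, c)`: the number of primes `p ≤ y` with `p ≡ c (mod m)` -/
noncomputable def primesAP (y : ℝ) (m c : ℕ) : ℕ :=
  ((Icc 1 ⌊y⌋₊).filter (fun p : ℕ => p.Prime ∧ p ≡ c [MOD m])).card

/-- the modulus `m` is as expected: some prime `p ≡ c (mod m)` is at most `lam m log m`, and the
number of these primes is `lam m / φ(m)` up to a relative error `ε` -/
def AsExpected (ε lam : ℝ) (m c : ℕ) : Prop :=
  (∃ p : ℕ, p.Prime ∧ p ≡ c [MOD m] ∧ (p : ℝ) ≤ lam * m * Real.log m) ∧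
    |(primesAP (lam * m * Real.log m) m c : ℝ) - lam * m / Nat.totient m| ≤
      ε * (lam * m / Nat.totient m)

open Classical in
/-- the number of moduli `M < m ≤ 2 M` coprime to `c` which are not as expected -/
noncomputable def exceptions (ε lam : ℝ) (M c : ℕ) : ℕ :=
  ((Ioc M (2 * M)).filter (fun m : ℕ => m.Coprime c ∧ ¬ AsExpected ε lam m c)).card

/-- `c` is typical: for every `1 ≤ lam ≤ (log M) ^ κ` there are at most
`C M (1 / lam + 1 / (log M) ^ δ)` exceptional moduli `M < m ≤ 2 M` -/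
def Typical (ε C δ : ℝ) (κ M c : ℕ) : Prop := ∀ lam : ℝ, 1 ≤ lam → lam ≤ Real.log M ^ κ →
  (exceptions ε lam M c : ℝ) ≤ C * M * (1 / lam + 1 / Real.log M ^ δ)

lemma dat_of {F : Finset ℝ} {u : ℝ → ℝ} {c : ℝ} {D N Y : ℕ} {θ b₀ : ℝ} {M : Finset ℕ}
    (h : Fam F u c D N Y θ b₀ M) : Pool.Agent.X31.DatG c D N Y θ b₀ (fun n => Pool.Agent.X31.gp F u n) M :=
  ⟨h.1, h.2.1, h.2.2.1, h.2.2.2.1, h.2.2.2.2.1, h.2.2.2.2.2⟩

lemma typ_conv (ε C δ : ℝ) (κ M c : ℕ) (hε : ε < 1) (hM : 1 ≤ M)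
    (h : Pool.Agent.W109.LT.Typical ε C δ κ M c) : Typical ε C δ κ M c := by
  classical
  intro lam h1 h2
  refine le_trans ?_ (h lam h1 h2)
  unfold exceptions
  have hsub : (Ioc M (2 * M)).filter (fun m : ℕ => m.Coprime c ∧ ¬ AsExpected ε lam m c) ⊆
      (Ioc M (2 * M)).filter (fun m : ℕ => m.Coprime c ∧
        ¬ |(Pool.Agent.W109.LT.primesAP (lam * m * Real.log m) m c : ℝ) - lam * m / Nat.totient m| ≤
          ε * (lam * m / Nat.totient m)) := by
    intro m hm
    rw [mem_filter] at hm ⊢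
    refine ⟨hm.1, hm.2.1, fun h3 => hm.2.2 ?_⟩
    have h3' : |(primesAP (lam * m * Real.log m) m c : ℝ) - lam * m / Nat.totient m| ≤
      ε * (lam * m / Nat.totient m) := h3
    refine ⟨?_, h3'⟩
    have hm1 := mem_Ioc.1 hm.1
    have hmp : (0 : ℝ) < m := by exact_mod_cast (by omega : 0 < m)
    have htp : (0 : ℝ) < Nat.totient m := by exact_mod_cast Nat.totient_pos.2 (by omega)
    have hu : 0 < lam * m / Nat.totient m := by positivity
    have h4 := (abs_le.1 h3').1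
    have h5 : (0 : ℝ) < primesAP (lam * m * Real.log m) m c := by nlinarith
    have h6 : 0 < primesAP (lam * m * Real.log m) m c := by exact_mod_cast h5
    unfold primesAP at h6
    obtain ⟨p, hp⟩ := card_pos.1 h6
    rw [mem_filter, mem_Icc] at hp
    refine ⟨p, hp.2.1, hp.2.2, ?_⟩
    have hy : 0 ≤ lam * m * Real.log m := by
      have : 0 ≤ Real.log m := Real.log_natCast_nonneg m
      positivity
    exact (Nat.le_floor_iff hy).1 hp.1.2
  exact_mod_cast card_le_card hsub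

/-- For `0 < ε ≤ 9/10` there are `C, δ > 0`, depending only on `ε`, with the following property. Let `F` be a finite set of real numbers with the maximum `c > 0`, `u c ≠ 0`, and
`f(t) = ∑_{x ∈ F} u x * t ^ x`.
Let `D`, `U`, `κ` be natural numbers. For all sufficiently large `N`, all `Y`, all real `θ`, `b₀` and all sets `M` with
`Fam F u c D N Y θ b₀ M`: for all but at most
`#M / log ^ U N` elements `n` of `M`, ALL natural numbers `c₀ > 0` with `|c₀ - (b₀ + θ * f F u n)| ≤ log ^ D N` satisfy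
`Typical ε C δ κ (2 N) c₀`. -/
theorem result (ε : ℝ) (hε : 0 < ε) (hε1 : ε ≤ 9 / 10) : ∃ C δ : ℝ, 0 < C ∧ 0 < δ ∧
    ∀ (F : Finset ℝ) (u : ℝ → ℝ) (c : ℝ) (hcF : c ∈ F) (hmax : ∀ x ∈ F, x ≤ c)
      (huc : u c ≠ 0) (hc : 0 < c) (D U κ : ℕ),
    ∃ N₀ : ℕ, ∀ N : ℕ, N₀ ≤ N → ∀ (Y : ℕ) (θ b₀ : ℝ) (M : Finset ℕ), Fam F u c D N Y θ b₀ M →
      ∃ E : Finset ℕ, (E.card : ℝ) ≤ M.card / Real.log N ^ U ∧ ∀ n ∈ M, n ∉ E →
        ∀ c₀ : ℕ, 0 < c₀ → |(c₀ : ℝ) - (b₀ + θ * f F u n)| ≤ Real.log N ^ D → Typical ε C δ κ (2 * N) c₀ := by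
  classical
  obtain ⟨C, δ, hC, hδ, hf⟩ := Pool.Agent.X31.fam2_lt ε hε hε1
  refine ⟨C, δ, hC, hδ, ?_⟩
  intro F u c hcF hmax huc hc D U κ
  obtain ⟨N₀, h0⟩ := (Pool.Agent.X31.Sch_gp F u c hcF hmax huc hc).single2 D U _ (fun h' _ => hf κ h')
  refine ⟨N₀ + 3, fun N hN Y θ b₀ M hfam => ?_⟩
  obtain ⟨E, hE1, hE2⟩ := h0 N (by omega) M _ ⟨Y, θ, b₀, dat_of hfam, fun _ => rfl⟩
  refine ⟨E, hE1, fun n hn hnE a ha has => ?_⟩
  have h1 := hE2 n hn hnE (a : ℤ) (by push_cast; exact has) (by exact_mod_cast ha)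
  rw [Int.toNat_natCast] at h1
  exact typ_conv ε C δ κ _ _ (by linarith) (by omega) h1

end Pool.Agent.Results.MP_42948a_nt.GeneralisedPolynomialClasses
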