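import Pool.Agent.X31.S11
import Pool.Agent.X31.V2

/-!
# The least primes `p(c, m)` for all residues `c` near
# the values of `n ^ k₀ log n` plus lower terms at integers with missing digits,
# and almost all moduli `m`

`f(t) = t ^ k₀ log t + ∑ u_x t ^ x`, where `k₀ ≥ 1` is an integer and the sum is an arbitrary finite real combination of
real powers of `t` with exponents at most `k₀` (for instance `t log t - t`), `C` is the set of the integers with `m` digits
in base `b` whose digit at `b ^ j` is in `𝒟 j`, where the sets `𝒟 j` of allowed digits are arbitrary with at least TWO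
elements (for instance: the integers with the decimal digits `0` and `1` only; such sets can be as thin as `N ^ ε`). The
values considered are `b₀ + θ f(n)`, `n ∈ C`.
For almost all elements `n` of an ARBITRARY dense subset `M` of `C`, ALL residues `c > 0` within `log ^ D N` of the value at `n`
satisfy, for all `1 ≤ lam ≤ (log 2N) ^ κ`: for all but at most `2 C N (1 / lam + 1 / (log 2N) ^ δ)` of the moduli
`2 N < m ≤ 4 N` coprime to `c` the least prime `p(c, m)` is at most `lam m log m`, and the number of the primes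
`p ≡ c (mod m)` up to `lam m log m` is `lam m / φ(m)` up to a relative error `ε`; the constants `C` and `δ > 0` depend
only on `ε`.

The minimal real additive energy of these values is from `Pool.Agent.X31.V1`, `V2` and `R1` - `R3` (in this run);
the theorem for families of small energy is in the starting files (`W109.LT.families`,
`MP_5b0a7e_nt.ThinResiduesLambda`).
-/

set_option autoImplicit false

namespace Pool.Agent.Results.MP_42948a_nt.LogPowerClasses

open Finset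

/-- the integers `0 ≤ n < b ^ m` whose digit at `b ^ j` in base `b` is in `𝒟 j`, for all `j < m` -/
def Digits (b : ℕ) (𝒟 : ℕ → Finset ℕ) (m : ℕ) : Finset ℕ :=
  (range (b ^ m)).filter (fun n => ∀ j < m, n / b ^ j % b ∈ 𝒟 j)

/-- the function `t ^ k₀ log t + ∑ u x * t ^ x` (over the exponents `x ∈ F`) -/
noncomputable def f (k₀ : ℕ) (F : Finset ℝ) (u : ℝ → ℝ) (t : ℝ) : ℝ := t ^ k₀ * Real.log t + ∑ x ∈ F, u x * t ^ x

/-- `M` is a subset with at least `#(Digits b 𝒟 m) / log ^ D N` elements of the set `Digits b 𝒟 m`, where all sets `𝒟 j`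
of allowed digits have at least two elements; the number `θ` is at most `log ^ D N` and at least
`N / (b ^ (k₀ m) log ^ D N)` in absolute value, and `|b₀ + θ f(n)| ≤ N` for all `n ∈ M`. -/
def Fam (b k₀ : ℕ) (F : Finset ℝ) (u : ℝ → ℝ) (D N m : ℕ) (𝒟 : ℕ → Finset ℕ) (θ b₀ : ℝ) (M : Finset ℕ) : Prop :=
  (∀ j, 𝒟 j ⊆ range b ∧ 2 ≤ (𝒟 j).card) ∧
  |θ| ≤ Real.log N ^ D ∧ (N : ℝ) / Real.log N ^ D ≤ |θ| * ((b : ℝ) ^ m) ^ k₀ ∧
  M ⊆ Digits b 𝒟 m ∧ ((Digits b 𝒟 m).card : ℝ) / Real.log N ^ D ≤ M.card ∧ ∀ n ∈ M, |b₀ + θ * f k₀ F u n| ≤ N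

/-- `π(y; m, c)`: the number of primes `p ≤ y` with `p ≡ c (mod m)` -/
noncomputable def primesAP (y : ℝ) (m c : ℕ) : ℕ :=
  ((Icc 1 ⌊y⌋₊).filter (fun p : ℕ => p.Prime ∧ p ≡ c [MOD m])).card

/-- the modulus `m` is as expected: some prime `p ≡ c (mod m)` is at most `lam m log m`, and the
number of these primes is `lam m / φ(m)` up to a relative error `ε` -/
def AsExpected (ε lam : ℝ) (m c : ℕ) : Prop :=
  (∃ p : ℕ, p.Prime ∧ p ≡ c [MOD m] ∧ (p : ℝ) ≤ lam * m * Real.log m) ∧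
    |(primesAP (lam * m * Real.log m) m c : ℝ) - lam * m / Nat.totient m| ≤
      ε * (lam * m / Nat.totient m)

open Classical in
/-- the number of moduli `M < m ≤ 2 M` coprime to `c` which are not as expected -/
noncomputable def exceptions (ε lam : ℝ) (M c : ℕ) : ℕ :=
  ((Ioc M (2 * M)).filter (fun m : ℕ => m.Coprime c ∧ ¬ AsExpected ε lam m c)).card

/-- `c` is typical: for every `1 ≤ lam ≤ (log M) ^ κ` there are at most
`C M (1 / lam + 1 / (log M) ^ δ)` exceptional moduli `M < m ≤ 2 M` -/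
def Typical (ε C δ : ℝ) (κ M c : ℕ) : Prop := ∀ lam : ℝ, 1 ≤ lam → lam ≤ Real.log M ^ κ →
  (exceptions ε lam M c : ℝ) ≤ C * M * (1 / lam + 1 / Real.log M ^ δ)

lemma dat_of {b k₀ : ℕ} {F : Finset ℝ} {u : ℝ → ℝ} {D N m : ℕ} {𝒟 : ℕ → Finset ℕ} {θ b₀ : ℝ} {M : Finset ℕ}
    (h : Fam b k₀ F u D N m 𝒟 θ b₀ M) :
    Pool.Agent.X31.CT.Dat3 b k₀ D N m 𝒟 θ b₀ (Pool.Agent.X31.lgp k₀ F u) M :=
  ⟨h.1, h.2.1, by rw [Real.rpow_natCast]; exact h.2.2.1, h.2.2.2.1, h.2.2.2.2.1, h.2.2.2.2.2⟩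

lemma typ_conv (ε C δ : ℝ) (κ M c : ℕ) (hε : ε < 1) (hM : 1 ≤ M)
    (h : Pool.Agent.W109.LT.Typical ε C δ κ M c) : Typical ε C δ κ M c := by
  classical
  intro lam h1 h2
  refine le_trans ?_ (h lam h1 h2)
  unfold exceptions
  have hsub : (Ioc M (2 * M)).filter (fun m : ℕ => m.Coprime c ∧ ¬ AsExpected ε lam m c) ⊆
      (Ioc M (2 * M)).filter (fun m : ℕ => m.Coprime c ∧
        ¬ |(Pool.Agent.W109.LT.primesAP (lam * m * Real.log m) m c : ℝ) - lam * m / Nat.totient m| ≤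
          ε * (lam * m / Nat.totient m)) := by
    intro m hm
    rw [mem_filter] at hm ⊢
    refine ⟨hm.1, hm.2.1, fun h3 => hm.2.2 ?_⟩
    have h3' : |(primesAP (lam * m * Real.log m) m c : ℝ) - lam * m / Nat.totient m| ≤
      ε * (lam * m / Nat.totient m) := h3
    refine ⟨?_, h3'⟩
    have hm1 := mem_Ioc.1 hm.1
    have hmp : (0 : ℝ) < m := by exact_mod_cast (by omega : 0 < m)
    have htp : (0 : ℝ) < Nat.totient m := by exact_mod_cast Nat.totient_pos.2 (by omega)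
    have hu : 0 < lam * m / Nat.totient m := by positivity
    have h4 := (abs_le.1 h3').1
    have h5 : (0 : ℝ) < primesAP (lam * m * Real.log m) m c := by nlinarith
    have h6 : 0 < primesAP (lam * m * Real.log m) m c := by exact_mod_cast h5
    unfold primesAP at h6
    obtain ⟨p, hp⟩ := card_pos.1 h6
    rw [mem_filter, mem_Icc] at hp
    refine ⟨p, hp.2.1, hp.2.2, ?_⟩
    have hy : 0 ≤ lam * m * Real.log m := by
      have : 0 ≤ Real.log m := Real.log_natCast_nonneg m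
      positivity
    exact (Nat.le_floor_iff hy).1 hp.1.2
  exact_mod_cast card_le_card hsub

/-- For `0 < ε ≤ 9/10` there are `C, δ > 0`, depending only on `ε`, with the following property. Let `b ≥ 2`, `k₀ ≥ 1` be integers, let `F` be a finite set of real numbers `x ≤ k₀`, and
`f(t) = t ^ k₀ log t + ∑_{x ∈ F} u x * t ^ x`.
Let `D`, `U`, `κ` be natural numbers. For all sufficiently large `N`, all numbers `m` of digits, ALL sets `𝒟 j` of allowed digits, all
real `θ`, `b₀` and all sets `M` with `Fam b k₀ F u D N m 𝒟 θ b₀ M`: for all but at most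
`#M / log ^ U N` elements `n` of `M`, ALL natural numbers `c₀ > 0` with `|c₀ - (b₀ + θ * f k₀ F u n)| ≤ log ^ D N` satisfy
`Typical ε C δ κ (2 N) c₀`. -/
theorem result (ε : ℝ) (hε : 0 < ε) (hε1 : ε ≤ 9 / 10) : ∃ C δ : ℝ, 0 < C ∧ 0 < δ ∧
    ∀ (b k₀ : ℕ) (hb : 2 ≤ b) (hk₀ : 1 ≤ k₀) (F : Finset ℝ) (u : ℝ → ℝ)
      (hF : ∀ x ∈ F, x ≤ k₀) (D U κ : ℕ),
    ∃ N₀ : ℕ, ∀ N : ℕ, N₀ ≤ N → ∀ (m : ℕ) (𝒟 : ℕ → Finset ℕ) (θ b₀ : ℝ) (M : Finset ℕ), Fam b k₀ F u D N m 𝒟 θ b₀ M →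
      ∃ E : Finset ℕ, (E.card : ℝ) ≤ M.card / Real.log N ^ U ∧ ∀ n ∈ M, n ∉ E →
        ∀ c₀ : ℕ, 0 < c₀ → |(c₀ : ℝ) - (b₀ + θ * f k₀ F u n)| ≤ Real.log N ^ D → Typical ε C δ κ (2 * N) c₀ := by
  classical
  obtain ⟨C, δ, hC, hδ, hf⟩ := Pool.Agent.X31.fam2_lt ε hε hε1
  refine ⟨C, δ, hC, hδ, ?_⟩
  intro b k₀ hb hk₀ F u hF D U κ
  obtain ⟨N₀, h0⟩ := (Pool.Agent.X31.Sch_lg hb k₀ hk₀ F u hF).single2 D U _ (fun h' _ => hf κ h')
  refine ⟨N₀ + 3, fun N hN m 𝒟 θ b₀ M hfam => ?_⟩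
  obtain ⟨E, hE1, hE2⟩ := h0 N (by omega) M _ ⟨m, 𝒟, θ, b₀, dat_of hfam, fun _ => rfl⟩
  refine ⟨E, hE1, fun n hn hnE a ha has => ?_⟩
  have h1 := hE2 n hn hnE (a : ℤ) (by push_cast; exact has) (by exact_mod_cast ha)
  rw [Int.toNat_natCast] at h1
  exact typ_conv ε C δ κ _ _ (by linarith) (by omega) h1

end Pool.Agent.Results.MP_42948a_nt.LogPowerClasses
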