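import Pool.Agent.X32.Uni.ProgC

/-!
# Almost primes with PRIME multipliers in all progressions with moduli up to a fixed power of the length

Let `h` and `A₀` be given. There are `z`, `G`, `t` and `κ > 0` such that for all `K`, `θ > 0` and all large `X` the
following holds for ALL `e ≠ 0`, `|e| ≤ K X`, and ALL sets `S` of at most `h` pairs `(d, a)` of coprime integers,
`d ≠ 0`, `|d|, |a| ≤ X ^ A₀` (so `X` may be `d ^ ε`), and all subsets `T` of `S` such that no prime divides all the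
values of `x (x + e) ∏_T (d x + a)`: in every interval `(A, B]` with `B ≤ X`, `B - A ≥ θ X` at least `κ (B - A) V`
PRIME multipliers `k` have the properties that
* `k + e` is a product of at most two primes `> X ^ (1/9)`,
* `d k + a` is a product of at most `t` primes `> X ^ (1/t)` for `(d, a) ∈ T`, and for all `(d, a) ∈ S` the product of
  an integer `1 ≤ g ≤ G` composed of primes `≤ z` and of at most `t` primes `> X ^ (1/t)`.
Here `V` is the product of `1 - ω(p) / p` over the primes `z < p ≤ X`, `V ≥ κ / (log X) ^ (h + 2)`. For every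
colouring all but `δ (B - A) V` of these multipliers are covered by pairwise disjoint monochromatic progressions of
`s` such multipliers with differences `≤ (log X) ^ c`.

The first part: for ONE progression `a mod d`, `a + d` odd, the local condition holds for `e = 6`. So all residue
classes `a mod d`, `d` even, `0 < a < d`, contain almost primes `d k + a < d ^ (1 + ε)` with `k` prime, `k + 6` a
product of at most two primes, and in the expected number.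
-/

set_option autoImplicit false

namespace Pool.Agent.Results.MP_42948a_nt.PrimeMultipliers

open Finset

/-- `|v| > 1`, and `|v|` is a product of at most `r` primes, all of them larger than `y` -/
def Almost (r : ℕ) (y : ℝ) (v : ℤ) : Prop :=
  1 < |v| ∧ v.natAbs.primeFactorsList.length ≤ r ∧ ∀ q : ℕ, q.Prime → (q : ℤ) ∣ v → y < q

/-- `v = g w`, where `1 ≤ g ≤ G` has only prime factors `≤ z` and `|w| > 1` is a product of at most `r` primes `> y` -/
def Near (z G r : ℕ) (y : ℝ) (v : ℤ) : Prop :=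
  ∃ (g : ℕ) (w : ℤ), v = g * w ∧ 1 ≤ g ∧ g ≤ G ∧ (∀ p : ℕ, p.Prime → p ∣ g → p ≤ z) ∧ Almost r y w

/-- `ω(p)`: the number of the zeros of `x (x + e) ∏ (d x + a)` modulo `p` -/
def omega (e : ℤ) (S : Finset (ℤ × ℤ)) (p : ℕ) : ℕ :=
  ((range p).filter fun x : ℕ => (p : ℤ) ∣ (x : ℤ) * ((x : ℤ) + e) * ∏ q ∈ S, (q.1 * (x : ℤ) + q.2)).card

/-- the product of `1 - ω(p) / p` over the primes `z < p ≤ X` -/
noncomputable def V (e : ℤ) (S : Finset (ℤ × ℤ)) (z X : ℕ) : ℝ :=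
  ∏ p ∈ (Ioc z X).filter Nat.Prime, (1 - (omega e S p : ℝ) / p)

open Classical in
/-- the prime multipliers `k` of `(A, B]` described above -/
noncomputable def Good (e : ℤ) (S T : Finset (ℤ × ℤ)) (z G t X A B : ℕ) : Finset ℕ :=
  (Ioc A B).filter (fun k : ℕ => k.Prime ∧ Almost 2 ((X : ℝ) ^ (1 / 9 : ℝ)) ((k : ℤ) + e) ∧
    Almost t ((X : ℝ) ^ (1 / (t : ℝ))) (k : ℤ) ∧ Almost t ((X : ℝ) ^ (1 / (t : ℝ))) ((k : ℤ) + e) ∧
    (∀ q ∈ T, Almost t ((X : ℝ) ^ (1 / (t : ℝ))) (q.1 * (k : ℤ) + q.2)) ∧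
    ∀ q ∈ S, Near z G t ((X : ℝ) ^ (1 / (t : ℝ))) (q.1 * (k : ℤ) + q.2))

/-- no prime divides all the values of `x (x + e) ∏_T (d x + a)` -/
def Admissible (e : ℤ) (T : Finset (ℤ × ℤ)) : Prop :=
  ∀ p : ℕ, p.Prime → ∃ x : ℤ, ¬ (p : ℤ) ∣ x * (x + e) * ∏ q ∈ T, (q.1 * x + q.2)

/-- the terms `a, a + b, ..., a + (s - 1) b` of the progression `τ = (a, b)` -/
def terms (s : ℕ) (τ : ℕ × ℕ) : Finset ℕ := (range s).image (fun i => τ.1 + i * τ.2)

theorem result : (∀ d a : ℤ, IsCoprime d a → Odd (d + a) → Admissible 6 {(d, a)}) ∧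
    ∀ h A₀ : ℕ, ∃ z G t : ℕ, 1 ≤ t ∧ ∃ κ : ℝ, 0 < κ ∧ ∀ (K s ρ : ℕ) (θ δ : ℝ),
    1 ≤ s → 0 < θ → 0 < δ → ∃ c X₀ : ℕ, ∀ X : ℕ, X₀ ≤ X → ∀ (e : ℤ) (S T : Finset (ℤ × ℤ)),
      e ≠ 0 → |e| ≤ K * (X : ℤ) → T ⊆ S → S.card ≤ h →
      (∀ q ∈ S, q.1 ≠ 0 ∧ IsCoprime q.1 q.2 ∧ |q.1| ≤ (X : ℤ) ^ A₀ ∧ |q.2| ≤ (X : ℤ) ^ A₀) → Admissible e T →
      κ / Real.log X ^ (h + 2) ≤ V e S z X ∧
      ∀ A B : ℕ, B ≤ X → θ * X ≤ (B : ℝ) - A →
        κ * ((B : ℝ) - A) * V e S z X ≤ ((Good e S T z G t X A B).card : ℝ) ∧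
        ∀ χ : ℕ → Fin ρ, ∃ P : Finset (ℕ × ℕ),
          (∀ τ ∈ P, 1 ≤ τ.2 ∧ (τ.2 : ℝ) ≤ Real.log X ^ c ∧
            ∀ l < s, τ.1 + l * τ.2 ∈ Good e S T z G t X A B ∧ χ (τ.1 + l * τ.2) = χ τ.1) ∧
          (P : Set (ℕ × ℕ)).PairwiseDisjoint (terms s) ∧
          (((Good e S T z G t X A B \ P.biUnion (terms s)).card : ℕ) : ℝ) ≤ δ * ((B : ℝ) - A) * V e S z X :=
  ⟨Pool.Agent.X32.Uni.admPr_six, Pool.Agent.X32.Uni.progC⟩

end Pool.Agent.Results.MP_42948a_nt.PrimeMultipliers
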