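import Pool.Agent.X20.Tr.Dyad
import Pool.Agent.Results.MP_42948a_nt.ShortClassIntervals

/-!
# Chowla's bound `p(d, a) < d ^ (1 + ε)` for almost all moduli `d = ⌊α n ^ c⌋`

From Mathlib: `dimH E`: the Hausdorff dimension; `⌊x⌋₊`: the integer part; `Finset.Icc 1 N`: the integers from `1` to
`N`.
-/

set_option autoImplicit false

namespace Pool.Agent.Results.MP_42948a_nt.SparseModuli

open Finset Filter
open Pool.Agent.X20.Tr

/-- at least `q (φ(d) / d) d ^ η` of the integers `a` in the interval `(β d, β d + d ^ η]` are coprime to `d` and such that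
some prime `p ≡ a (mod d)` is less than `d ^ (1 + ε)` -/
def Good (ε η β q : ℝ) (d : ℕ) : Prop :=
  q * ((Nat.totient d : ℝ) / d) * (d : ℝ) ^ η ≤
    ({a : ℕ | β * d < a ∧ (a : ℝ) ≤ β * d + (d : ℝ) ^ η ∧ a.Coprime d ∧
      ∃ p : ℕ, p.Prime ∧ p ≡ a [MOD d] ∧ (p : ℝ) < (d : ℝ) ^ (1 + ε)}.ncard : ℝ)

lemma Good.mono {ε ε' η β q : ℝ} {d : ℕ} (h : Good ε' η β q d) (hε' : 0 < ε') (hε : ε' ≤ ε) : Good ε η β q d := by
  refine le_trans h ?_
  have hfin : {a : ℕ | β * d < a ∧ (a : ℝ) ≤ β * d + (d : ℝ) ^ η ∧ a.Coprime d ∧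
      ∃ p : ℕ, p.Prime ∧ p ≡ a [MOD d] ∧ (p : ℝ) < (d : ℝ) ^ (1 + ε)}.Finite := by
    refine (Set.finite_Iic ⌊β * d + (d : ℝ) ^ η⌋₊).subset fun a ha => ?_
    exact Nat.le_floor ha.2.1
  rw [Nat.cast_le]
  refine Set.ncard_le_ncard ?_ hfin
  rintro a ⟨h1, h2, h3, p, h4, h5, h6⟩
  refine ⟨h1, h2, h3, p, h4, h5, lt_of_lt_of_le h6 ?_⟩
  rcases Nat.eq_zero_or_pos d with rfl | hd
  · rw [Nat.cast_zero, Real.zero_rpow (by linarith), Real.zero_rpow (by linarith)]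
  · exact Real.rpow_le_rpow_of_exponent_le (by exact_mod_cast hd) (by linarith)

open Classical in
/-- For every real `c > 1` there are `κ > 0` and a set `E` of real numbers of Hausdorff dimension at most `1 - κ` such
that for all real `0 < ε < 1` and rational `0 < η < 1` there are `q, δ > 0` such that for every real `α > 0` outside `E` and ALL
rational `0 ≤ β ≤ 1`: for all but at most `N ^ (1 - δ)` of the `n ≤ N` (`N` large), with `d = ⌊α n ^ c⌋`, at least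
`q (φ(d) / d) d ^ η` of the integers `a` in the interval `(β d, β d + d ^ η]` are coprime to `d` and such that the least prime
`p ≡ a (mod d)` is less than `d ^ (1 + ε)`. -/
theorem result (c : ℝ) (hc : 1 < c) : ∃ κ : ℝ, 0 < κ ∧ κ < 1 ∧ ∃ E : Set ℝ, dimH E ≤ ENNReal.ofReal (1 - κ) ∧
    ∀ (ε : ℝ) (η : ℚ), 0 < ε → ε < 1 → 0 < η → η < 1 → ∃ q δ : ℝ, 0 < q ∧ 0 < δ ∧ ∀ α : ℝ, 0 < α → α ∉ E →
      ∀ β : ℚ, 0 ≤ β → β ≤ 1 → ∃ N₀ : ℕ, ∀ N : ℕ, N₀ ≤ N →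
        (((Icc 1 N).filter (fun n : ℕ => ¬ Good ε η β q ⌊α * (n : ℝ) ^ c⌋₊)).card : ℝ) ≤ (N : ℝ) ^ (1 - δ) := by
  obtain ⟨κ, hκ0, hκ1, H⟩ := sparse_pow c hc
  have hin : ∀ k : ℕ, (0 : ℝ) < 1 / ((k : ℝ) + 2) := fun k => by positivity
  have hin1 : ∀ k : ℕ, 1 / ((k : ℝ) + 2) < 1 := fun k => by
    rw [div_lt_one (by positivity)]
    have : (0 : ℝ) ≤ k := Nat.cast_nonneg _
    linarith
  choose q d hq hd D₀ hD using fun (k : ℕ) (η : {q : ℚ // 0 < q ∧ q < 1}) =>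
    ShortClassIntervals.result (1 / ((k : ℝ) + 2)) (η.1 : ℝ) (hin k) (hin1 k)
      (by exact_mod_cast η.2.1) (by exact_mod_cast η.2.2)
  obtain ⟨E, hE, hh⟩ := H ((ℕ × {q : ℚ // 0 < q ∧ q < 1}) × ℚ)
    (fun i a => 0 ≤ a ∧ ¬ Good (1 / ((i.1.1 : ℝ) + 2)) (i.1.2.1 : ℝ) (i.2 : ℝ) (q i.1.1 i.1.2) a.toNat)
  refine ⟨κ, hκ0, hκ1, E, hE, fun ε η hε hε1 hη hη1 => ?_⟩
  obtain ⟨k, hk'⟩ := exists_nat_one_div_lt hε
  have hk : 1 / ((k : ℝ) + 2) ≤ ε := by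
    refine le_trans ?_ hk'.le
    exact one_div_le_one_div_of_le (by positivity) (by linarith)
  obtain ⟨e, he⟩ : ∃ e : {q : ℚ // 0 < q ∧ q < 1}, e.1 = η := ⟨⟨η, hη, hη1⟩, rfl⟩
  have hdk : 0 < min (d k e) (1 / 2) := lt_min (hd k e) (by norm_num)
  have hdk2 : min (d k e) (1 / 2) ≤ 1 / 2 := min_le_right _ _
  have hdk3 : min (d k e) (1 / 2) ≤ d k e := min_le_left _ _
  obtain ⟨δ, hδ⟩ : ∃ δ : ℝ, δ = min κ (min (d k e) (1 / 2)) / 4 := ⟨_, rfl⟩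
  have hδ0 : 0 < δ := by rw [hδ]; exact div_pos (lt_min hκ0 hdk) (by norm_num)
  have h4κ : 4 * δ ≤ κ := by
    rw [hδ]
    linarith [min_le_left κ (min (d k e) (1 / 2))]
  have h4d : 4 * δ ≤ min (d k e) (1 / 2) := by
    rw [hδ]
    linarith [min_le_right κ (min (d k e) (1 / 2))]
  refine ⟨q k e, δ, hq k e, hδ0, fun α hα hαE β hβ hβ1 => ?_⟩
  obtain ⟨N₀, hN₀⟩ := hh α hα hαE ((k, e), β) 0 1 (Or.inl rfl) (min (d k e) (1 / 2)) 3 hdk hdk2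
    ⟨max (2 * D₀ k e) 2, fun N hN => by
      have hN2 : 2 ≤ N := (le_max_right _ _).trans hN
      have hN1 : 2 * D₀ k e ≤ N := (le_max_left _ _).trans hN
      have hNb : (1 : ℝ) ≤ N := by
        have : 1 ≤ N := by omega
        exact_mod_cast this
      obtain ⟨F, hF1, hF2⟩ := hD k e (N / 2) (by omega) (β : ℝ) (by exact_mod_cast hβ) (by exact_mod_cast hβ1)
      have h1 : (1 : ℝ) ≤ (N : ℝ) ^ (1 - min (d k e) (1 / 2)) := Real.one_le_rpow hNb (by linarith)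
      have hM1 : (1 : ℝ) ≤ ((N / 2 : ℕ) : ℝ) := by
        have : 1 ≤ N / 2 := by omega
        exact_mod_cast this
      have h2 : (F.card : ℝ) ≤ (N : ℝ) ^ (1 - min (d k e) (1 / 2)) := by
        refine hF1.trans ?_
        calc ((N / 2 : ℕ) : ℝ) ^ (1 - d k e) ≤ ((N / 2 : ℕ) : ℝ) ^ (1 - min (d k e) (1 / 2)) :=
              Real.rpow_le_rpow_of_exponent_le hM1 (by linarith)
          _ ≤ (N : ℝ) ^ (1 - min (d k e) (1 / 2)) := by
              apply Real.rpow_le_rpow (by positivity) _ (by linarith)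
              have : N / 2 ≤ N := by omega
              exact_mod_cast this
      have h3 : {a : ℤ | (0 ≤ a ∧ ¬ Good (1 / ((k : ℝ) + 2)) (e.1 : ℝ) (β : ℝ) (q k e) a.toNat) ∧
          (N : ℤ) < 2 * |a| ∧ |a| ≤ N} ⊆ (fun n : ℕ => (n : ℤ)) '' ((F ∪ {N, N - 1} : Finset ℕ) : Set ℕ) := by
        rintro a ⟨⟨h0, h3⟩, h5, h6⟩
        obtain ⟨n, rfl⟩ := Int.eq_ofNat_of_zero_le h0
        rw [Nat.abs_cast] at h5 h6
        rw [Int.toNat_natCast] at h3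
        refine ⟨n, ?_, rfl⟩
        rw [Finset.mem_coe, mem_union, mem_insert, mem_singleton]
        by_contra hn
        push Not at hn
        obtain ⟨hn1, hn2, hn3⟩ := hn
        exact h3 (hF2 n (by omega) (by omega) hn1)
      have h4 : ({a : ℤ | (0 ≤ a ∧ ¬ Good (1 / ((k : ℝ) + 2)) (e.1 : ℝ) (β : ℝ) (q k e) a.toNat) ∧
          (N : ℤ) < 2 * |a| ∧ |a| ≤ N}.ncard : ℝ) ≤ (F ∪ {N, N - 1} : Finset ℕ).card := by
        rw [Nat.cast_le, ← Set.ncard_coe_finset (F ∪ {N, N - 1} : Finset ℕ),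
          ← Set.ncard_image_of_injective ((F ∪ {N, N - 1} : Finset ℕ) : Set ℕ) (Nat.cast_injective (R := ℤ))]
        exact Set.ncard_le_ncard h3 (((F ∪ {N, N - 1} : Finset ℕ).finite_toSet).image _)
      have h5 : ((F ∪ {N, N - 1} : Finset ℕ).card : ℝ) ≤ F.card + 2 := by
        have h6 := card_union_le F {N, N - 1}
        have h7 := card_le_two (a := N) (b := N - 1)
        have h8 : (F ∪ {N, N - 1} : Finset ℕ).card ≤ F.card + 2 := by omega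
        exact_mod_cast h8
      refine h4.trans (h5.trans ?_)
      linarith⟩
    δ hδ0.le (by linarith) (by linarith)
  refine ⟨N₀, fun N hN => le_trans ?_ (hN₀ N hN)⟩
  rw [Nat.cast_le]
  refine card_le_card fun n hn => ?_
  replace hn := mem_filt.1 hn
  refine mem_filt.2 ⟨hn.1, ?_⟩
  have e' : (0 : ℤ) + 1 * ((⌊α * (n : ℝ) ^ c⌋₊ : ℕ) : ℤ) = ((⌊α * (n : ℝ) ^ c⌋₊ : ℕ) : ℤ) := by ring
  show 0 ≤ (0 : ℤ) + 1 * ((⌊α * (n : ℝ) ^ c⌋₊ : ℕ) : ℤ) ∧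
    ¬ Good (1 / ((k : ℝ) + 2)) (e.1 : ℝ) (β : ℝ) (q k e) ((0 : ℤ) + 1 * ((⌊α * (n : ℝ) ^ c⌋₊ : ℕ) : ℤ)).toNat
  rw [e', Int.toNat_natCast]
  refine ⟨Nat.cast_nonneg _, fun h => hn.2 ?_⟩
  rw [he] at h
  exact h.mono (hin k) hk

end Pool.Agent.Results.MP_42948a_nt.SparseModuli
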